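import Pool.Agent.H373R2.T7.SegEA
import Pool.Agent.H373R2.T7.SupLiou

/-!
# Hardy-Littlewood-Chowla sums for almost all polynomial shifts

Let `f` be a nonconstant polynomial of degree `d` with integer coefficients and positive leading
coefficient. For all `k` and `l`, all shifts `h_1, ..., h_k ≤ N ^ A` and all shifts
`h'_1, ..., h'_l` (which may depend on `N` in any way) the average over `n ≤ N` of
`Λ(n + h_1) ... Λ(n + h_k) λ(n + h'_1) ... λ(n + h'_l) λ(n + f(m))` is `O(1 / (log N) ^ U)` for all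
but `x / (log N) ^ U` of the `m ≤ x`, where `x ^ d` is of the order of magnitude of `N`; the same
holds for all averages over initial segments simultaneously, and with `a n + f(m)` in place of
`n + f(m)`, uniformly in `a ≤ (log N) ^ K`.

The analytic work (the mean value theorem for polynomial sequences, the bilinear estimates and the
exponential sums of the Liouville function with arbitrary logarithmic savings) is in the starting
files `Pool/Agent/H373R2/T7/`.
-/

set_option autoImplicit false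

namespace Pool.Agent.Results.MP_e6fa8b_nt.PolynomialShiftsOnAverage

open Finset Polynomial Pool.Agent.H373R2.T7

/-- the Liouville function of a natural number -/
noncomputable def lam (n : ℕ) : ℝ := (-1) ^ ArithmeticFunction.cardFactors n

/-- the Liouville function of an integer, zero if the integer is not positive -/
noncomputable def lamZ (z : ℤ) : ℝ := if 1 ≤ z then lam z.toNat else 0

lemma lam_abs (n : ℕ) : |lam n| = 1 := by
  unfold lam
  rw [abs_pow, abs_neg, abs_one, one_pow]

lemma exI_liR (z : ℤ) : exI liR z = ((lamZ z : ℝ) : ℂ) := by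
  unfold exI lamZ liR lam
  split_ifs <;> push_cast <;> rfl

open Classical in
theorem result (f : ℤ[X]) (hd : 1 ≤ f.natDegree) (hl : 0 < f.leadingCoeff) (k l A B K U : ℕ) :
    ∃ N₀ : ℕ, ∀ N : ℕ, N₀ ≤ N → ∀ a : ℕ, 1 ≤ a → (a : ℝ) ≤ Real.log N ^ K →
    ∀ x : ℕ, a * N ≤ B * x ^ f.natDegree → x ^ f.natDegree ≤ B * (a * N) →
    ∀ (h : Fin k → ℕ) (h' : Fin l → ℕ), (∀ i, h i ≤ N ^ A) →
      (((Icc 1 x).filter (fun m : ℕ => ∃ N' : ℕ, N' ≤ N ∧ N / Real.log N ^ U <
        |∑ n ∈ Icc 1 N', (∏ i, ArithmeticFunction.vonMangoldt (n + h i)) *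
          (∏ j, lam (n + h' j)) * lamZ ((a : ℤ) * n + f.eval (m : ℤ))|)).card : ℝ) ≤
        x / Real.log N ^ U := by
  obtain ⟨N1, hN1⟩ := seg_pa liR liR_norm sup_liou f hd hl B K (U + 2 * k)
  -- eventually `A + 2 ≤ log N`
  have hev : ∀ᶠ N : ℕ in Filter.atTop, ((A : ℝ) + 2) ≤ Real.log N :=
    (Real.tendsto_log_atTop.comp tendsto_natCast_atTop_atTop).eventually_ge_atTop _
  obtain ⟨N2, hN2⟩ := Filter.eventually_atTop.1 hev
  refine ⟨max N1 (max N2 3), fun N hN a ha haK x hx1 hx2 h h' hh => ?_⟩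
  have hN3 : 3 ≤ N := le_trans (le_trans (le_max_right _ _) (le_max_right _ _)) hN
  have hNr : (3 : ℝ) ≤ N := by exact_mod_cast hN3
  have hN0 : (0 : ℝ) < N := by linarith
  set L := Real.log N with hL
  have hLA : (A : ℝ) + 2 ≤ L := hN2 N (le_trans (le_trans (le_max_left _ _) (le_max_right _ _)) hN)
  have hA0 : (0 : ℝ) ≤ A := Nat.cast_nonneg A
  have hL1 : 1 ≤ L := by linarith
  have hL0 : 0 < L := by linarith
  set M : ℝ := L ^ (2 * k) with hM
  have hMpos : 0 < M := by positivity
  -- the von Mangoldt factors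
  have hlam1 : ∀ n ≤ N, ∀ i, |ArithmeticFunction.vonMangoldt (n + h i)| ≤ L ^ 2 := by
    intro n hn i
    rw [abs_of_nonneg ArithmeticFunction.vonMangoldt_nonneg]
    refine ArithmeticFunction.vonMangoldt_le_log.trans ?_
    rcases Nat.eq_zero_or_pos (n + h i) with h0 | h0
    · rw [h0]
      simp only [Nat.cast_zero, Real.log_zero]
      positivity
    have h1 : n + h i ≤ N ^ (A + 2) := by
      have hNA : 1 ≤ N ^ A := Nat.one_le_pow _ _ (by omega)
      calc n + h i ≤ N + N ^ A := Nat.add_le_add hn (hh i)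
        _ ≤ N * N ^ A + N * N ^ A := by
            apply Nat.add_le_add
            · exact Nat.le_mul_of_pos_right _ hNA
            · exact Nat.le_mul_of_pos_left _ (by omega)
        _ = 2 * (N * N ^ A) := by ring
        _ ≤ N * (N * N ^ A) := Nat.mul_le_mul_right _ (by omega)
        _ = N ^ (A + 2) := by ring
    calc Real.log ((n + h i : ℕ) : ℝ) ≤ Real.log ((N ^ (A + 2) : ℕ) : ℝ) := by
          apply Real.log_le_log (by exact_mod_cast h0)
          exact_mod_cast h1
      _ = (A + 2) * L := by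
          push_cast
          rw [Real.log_pow]
          push_cast
          rfl
      _ ≤ L * L := mul_le_mul_of_nonneg_right hLA hL0.le
      _ = L ^ 2 := by ring
  set F : ℕ → ℝ := fun n => (∏ i, ArithmeticFunction.vonMangoldt (n + h i)) *
    (∏ j, lam (n + h' j)) with hF
  have hFb : ∀ n ≤ N, |F n| ≤ M := by
    intro n hn
    rw [hF]
    simp only
    rw [abs_mul, Finset.abs_prod, Finset.abs_prod]
    have e1 : ∏ j, |lam (n + h' j)| = 1 := Finset.prod_eq_one fun j _ => lam_abs _
    rw [e1, mul_one]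
    calc ∏ i, |ArithmeticFunction.vonMangoldt (n + h i)| ≤ ∏ _i : Fin k, L ^ 2 :=
          Finset.prod_le_prod (fun i _ => abs_nonneg _) (fun i _ => hlam1 n hn i)
      _ = M := by
          rw [Finset.prod_const, Finset.card_univ, Fintype.card_fin, hM, ← pow_mul]
  set g : ℕ → ℂ := fun n => if n ≤ N then ((F n / M : ℝ) : ℂ) else 0 with hg
  have hg1 : ∀ n, ‖g n‖ ≤ 1 := by
    intro n
    rw [hg]
    simp only
    split_ifs with hn
    · rw [Complex.norm_real, Real.norm_eq_abs, abs_div, abs_of_pos hMpos, div_le_one hMpos]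
      exact hFb n hn
    · simp
  have key := hN1 N ((le_max_left _ _).trans hN) a ha haK x hx1 hx2 g hg1
  have hsum : ∀ m N' : ℕ, N' ≤ N →
      ‖∑ n ∈ Icc 1 N', g n * exI liR ((a : ℤ) * n + f.eval (m : ℤ))‖ =
      |∑ n ∈ Icc 1 N', F n * lamZ ((a : ℤ) * n + f.eval (m : ℤ))| / M := by
    intro m N' hN'
    have e1 : ∑ n ∈ Icc 1 N', g n * exI liR ((a : ℤ) * n + f.eval (m : ℤ)) =
        (((∑ n ∈ Icc 1 N', F n * lamZ ((a : ℤ) * n + f.eval (m : ℤ))) / M : ℝ) : ℂ) := by
      rw [Finset.sum_div]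
      push_cast
      apply Finset.sum_congr rfl
      intro n hn
      rw [mem_Icc] at hn
      rw [hg, exI_liR]
      simp only
      rw [if_pos (hn.2.trans hN')]
      push_cast
      ring
    rw [e1, Complex.norm_real, Real.norm_eq_abs, abs_div, abs_of_pos hMpos]
  refine le_trans ?_ (key.trans ?_)
  · have hsub : (Icc 1 x).filter (fun m : ℕ => ∃ N' : ℕ, N' ≤ N ∧ N / L ^ U <
        |∑ n ∈ Icc 1 N', (∏ i, ArithmeticFunction.vonMangoldt (n + h i)) *
          (∏ j, lam (n + h' j)) * lamZ ((a : ℤ) * n + f.eval (m : ℤ))|) ⊆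
      (Icc 1 x).filter (fun m : ℕ => ∃ N' : ℕ, N' ≤ N ∧ N / L ^ (U + 2 * k) <
        ‖∑ n ∈ Icc 1 N', g n * exI liR ((a : ℤ) * n + f.eval (m : ℤ))‖) := by
      intro m hm
      rw [mem_filter] at hm ⊢
      obtain ⟨hm1, N', hN', hbig⟩ := hm
      refine ⟨hm1, N', hN', ?_⟩
      rw [hsum m N' hN', lt_div_iff₀ hMpos]
      calc N / L ^ (U + 2 * k) * M = N / L ^ U := by
            rw [hM, pow_add]; field_simp
        _ < _ := hbig
    exact_mod_cast card_le_card hsub
  · apply div_le_div_of_nonneg_left (Nat.cast_nonneg _) (by positivity)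
    exact pow_le_pow_right₀ hL1 (by omega)

end Pool.Agent.Results.MP_e6fa8b_nt.PolynomialShiftsOnAverage
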